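import Pool.Agent.Lib.MP_4fbe7c_an.ND.Iface
import Pool.Agent.Lib.MP_4fbe7c_an.ND.Base

/-! Project ND, module STR: strips near the boundary have small volume (helper24). -/

set_option autoImplicit false

open Set MeasureTheory Filter Topology

namespace Pool.Agent.Lib.MP_4fbe7c_an.ND.H24

open Pool.Agent.Lib.MP_4fbe7c_an.ND

variable {p : ℕ} {Ω : Set (Eu p)} {q : Eu p → ℝ}

/-- A `C¹` function, equal to `1` on the closure of the domain, with compact support. -/
theorem exists_cut (h : Dom Ω q) : ∃ χ : Eu p → ℝ, ContDiff ℝ 1 χ ∧ HasCompactSupport χ ∧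
    (∀ x ∈ closure Ω, χ x = 1) ∧ ∀ x, 0 ≤ χ x := by
  obtain ⟨R, hR⟩ := h.isCompact.isBounded.subset_closedBall (0 : Eu p)
  let f : ContDiffBump (0 : Eu p) := ⟨max R 1, max R 1 + 1,
    lt_of_lt_of_le one_pos (le_max_right _ _), by linarith⟩
  refine ⟨f, f.contDiff, f.hasCompactSupport, ?_, fun x => f.nonneg⟩
  intro x hx
  apply f.one_of_mem_closedBall
  exact Metric.closedBall_subset_closedBall (le_max_left _ _) (hR hx)

/-- The gradient is not small in a strip. -/
theorem exists_strip (h : Dom Ω q) : ∃ k : ℝ, 0 < k ∧ ∀ x, -k < q x → q x ≤ 0 →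
    k ≤ ‖gradient q x‖ ^ 2 := by
  have hc : Continuous (fun x => ‖gradient q x‖ ^ 2 + |q x|) :=
    (h.continuous_gradient.norm.pow 2).add h.cont.abs
  obtain ⟨c, hc0, hc1⟩ := h.exists_pos_le hc.continuousOn (by
    intro x _
    rcases eq_or_ne (q x) 0 with h1 | h1
    · have := norm_pos_iff.mpr (h.grad x h1)
      positivity
    · have := abs_pos.mpr h1
      positivity)
  refine ⟨c / 2, by positivity, ?_⟩
  intro x h1 h2
  have h3 := hc1 x (h.mem_closure_iff.mpr h2)
  rw [abs_of_nonpos h2] at h3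
  linarith

theorem str_c1 (h : Dom Ω q) (s : ℝ) : ContDiff ℝ 1 (fun x => 2 * Real.arctan (q x / s)) := by
  have hq1 : ContDiff ℝ 1 q := h.smooth.of_le (by norm_num)
  exact contDiff_const.mul (Real.contDiff_arctan.comp (hq1.div_const s))

theorem str_grad (h : Dom Ω q) (x : Eu p) (s : ℝ) :
    HasGradientAt (fun x => 2 * Real.arctan (q x / s))
      ((2 * (1 / (1 + (q x / s) ^ 2)) * (1 / s)) • gradient q x) x := by
  have h6 : HasDerivAt (fun t : ℝ => 2 * Real.arctan (t / s))
      (2 * (1 / (1 + (q x / s) ^ 2) * (1 / s))) (q x) :=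
    (((hasDerivAt_id (q x)).div_const s).arctan).const_mul 2
  have h7 := HasGradientAt.comp' h6 (h.hasGradientAt x)
  rw [← mul_assoc] at h7
  exact h7

theorem str_tr (c : Eu p → ℝ) (W : Eu p → Eu p) (g : Eu p) (x : Eu p)
    (h5 : HasFDerivAt c (innerSL ℝ g) x) (h4 : HasFDerivAt W (fderiv ℝ W x) x) :
    tr (fderiv ℝ (fun x => c x • W x) x) = c x * tr (fderiv ℝ W x) + inner ℝ g (W x) := by
  have h6 : HasFDerivAt (fun x => c x • W x) (c x • fderiv ℝ W x +
      (innerSL ℝ g).smulRight (W x)) x := h5.smul h4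
  rw [h6.fderiv, tr_add, tr_smul, tr_smulRight]

theorem str_zero (hDv0 : Dv0Statement) (c : Eu p → ℝ) (W : Eu p → Eu p) (hc : ContDiff ℝ 1 c)
    (hW : ContDiff ℝ 1 W) (hWs : HasCompactSupport W) :
    ∫ x, tr (fderiv ℝ (fun x => c x • W x) x) = 0 := by
  have hG : ContDiff ℝ 1 (fun x => c x • W x) := hc.smul hW
  have hd : Differentiable ℝ (fun x => c x • W x) := hG.differentiable (by norm_num)
  have hs : HasCompactSupport (fun x => c x • W x) := hWs.smul_left (f := c)
  exact hDv0 p (fun x => c x • W x) (fderiv ℝ (fun x => c x • W x))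
    (fun x => (hd x).hasFDerivAt) (hG.continuous_fderiv (by norm_num)) hs

/-- The integral identity. -/
theorem str_key (hDv0 : Dv0Statement) (h : Dom Ω q) {χ : Eu p → ℝ} (h1 : ContDiff ℝ 1 χ)
    (h2 : HasCompactSupport χ) (s : ℝ) :
    ∫ x, (2 * Real.arctan (q x / s) * tr (fderiv ℝ (fun x => χ x • gradient q x) x) +
      2 * (1 / (1 + (q x / s) ^ 2)) * (1 / s) * (χ x * ‖gradient q x‖ ^ 2)) = 0 := by
  have hWc : ContDiff ℝ 1 (fun x => χ x • gradient q x) := h1.smul h.contDiff_gradient
  have hWs : HasCompactSupport (fun x => χ x • gradient q x) := h2.smul_right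
  have h3 := str_zero hDv0 (fun x => 2 * Real.arctan (q x / s)) (fun x => χ x • gradient q x)
    (str_c1 h s) hWc hWs
  rw [← h3]
  congr 1
  funext x
  have h4 : HasFDerivAt (fun x => χ x • gradient q x)
    (fderiv ℝ (fun x => χ x • gradient q x) x) x :=
      ((hWc.differentiable (by norm_num)) x).hasFDerivAt
  rw [str_tr (fun x => 2 * Real.arctan (q x / s)) (fun x => χ x • gradient q x) _ x
    (str_grad h x s) h4, real_inner_smul_left, real_inner_smul_right, real_inner_self_eq_norm_sq]

/-- Module STR. -/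
theorem str_st (hDv0 : Dv0Statement) : StrStatement := by
  intro p Ω q h
  obtain ⟨χ, h1, h2, h3, h4⟩ := exists_cut h
  obtain ⟨k, hk, hk1⟩ := exists_strip h
  obtain ⟨W, hW⟩ : ∃ W : Eu p → Eu p, W = fun x => χ x • gradient q x := ⟨_, rfl⟩
  have hWc : ContDiff ℝ 1 W := by rw [hW]; exact h1.smul h.contDiff_gradient
  have hWs : HasCompactSupport W := by rw [hW]; exact h2.smul_right
  have htc : Continuous (fun x => tr (fderiv ℝ W x)) :=
    continuous_tr.comp (hWc.continuous_fderiv (by norm_num))
  have hts : HasCompactSupport (fun x => tr (fderiv ℝ W x)) :=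
    (hWs.fderiv (𝕜 := ℝ)).comp_left (g := fun A : Eu p →L[ℝ] Eu p => tr A) tr_zero
  obtain ⟨I, hI⟩ : ∃ I : ℝ, I = ∫ x, |tr (fderiv ℝ W x)| := ⟨_, rfl⟩
  have hI0 : 0 ≤ I := by rw [hI]; exact integral_nonneg fun x => abs_nonneg _
  refine ⟨4 * I / k + 1, k, by positivity, hk, ?_⟩
  intro s hs0 hsk
  have h5 := str_key hDv0 h h1 h2 s
  rw [← hW] at h5
  have hint1 : Integrable (fun x => 2 * Real.arctan (q x / s) * tr (fderiv ℝ W x)) := by
    apply Continuous.integrable_of_hasCompactSupport
    · exact (continuous_const.mul (Real.continuous_arctan.comp (h.cont.div_const s))).mul htc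
    · exact hts.mul_left
  have hpos : ∀ x, 0 ≤ 2 * (1 / (1 + (q x / s) ^ 2)) * (1 / s) * (χ x * ‖gradient q x‖ ^ 2) := by
    intro x
    have := h4 x
    positivity
  have hint2 : Integrable (fun x => 2 * (1 / (1 + (q x / s) ^ 2)) * (1 / s) *
      (χ x * ‖gradient q x‖ ^ 2)) := by
    apply Continuous.integrable_of_hasCompactSupport
    · have h6 : Continuous (fun x => 1 / (1 + (q x / s) ^ 2)) := by
        apply continuous_const.div
        · exact continuous_const.add ((h.cont.div_const s).pow 2)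
        · intro x
          positivity
      exact ((continuous_const.mul h6).mul continuous_const).mul
        (h1.continuous.mul (h.continuous_gradient.norm.pow 2))
    · exact (h2.mul_right).mul_left
  rw [integral_add hint1 hint2] at h5
  -- the upper bound
  have h6 : ∫ x, 2 * (1 / (1 + (q x / s) ^ 2)) * (1 / s) * (χ x * ‖gradient q x‖ ^ 2) ≤ 4 * I := by
    have h7 : -∫ x, 2 * Real.arctan (q x / s) * tr (fderiv ℝ W x) ≤
        ∫ x, 4 * |tr (fderiv ℝ W x)| := by
      rw [← integral_neg]
      apply integral_mono hint1.neg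
      · exact (htc.abs.integrable_of_hasCompactSupport hts.norm).const_mul 4
      · intro x
        change -(2 * Real.arctan (q x / s) * tr (fderiv ℝ W x)) ≤ 4 * |tr (fderiv ℝ W x)|
        have h8 : |2 * Real.arctan (q x / s)| ≤ 4 := by
          rw [abs_mul, abs_two]
          have h9 : |Real.arctan (q x / s)| ≤ 2 := by
            rw [abs_le]
            have := Real.arctan_lt_pi_div_two (q x / s)
            have := Real.neg_pi_div_two_lt_arctan (q x / s)
            have := Real.pi_lt_four
            constructor <;> linarith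
          linarith
        have h10 : |2 * Real.arctan (q x / s) * tr (fderiv ℝ W x)| ≤
            4 * |tr (fderiv ℝ W x)| := by
          rw [abs_mul]
          exact mul_le_mul_of_nonneg_right h8 (abs_nonneg _)
        exact (neg_le_abs _).trans h10
    rw [integral_const_mul, ← hI] at h7
    linarith
  -- the strip
  have hm : MeasurableSet {x | -s < q x ∧ q x < 0} := by
    apply IsOpen.measurableSet
    exact (isOpen_lt continuous_const h.cont).inter (isOpen_lt h.cont continuous_const)
  have hfin : volume {x | -s < q x ∧ q x < 0} < ⊤ := by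
    apply lt_of_le_of_lt (measure_mono _) h.volume_lt_top
    intro x hx
    exact h.mem_iff.mpr hx.2
  have h7 : ∫ _x in {x | -s < q x ∧ q x < 0}, k / s ≤
      ∫ x in {x | -s < q x ∧ q x < 0},
        2 * (1 / (1 + (q x / s) ^ 2)) * (1 / s) * (χ x * ‖gradient q x‖ ^ 2) := by
    apply setIntegral_mono_on _ hint2.integrableOn hm
    · intro x hx
      have h8 : χ x = 1 := h3 x (h.mem_closure_iff.mpr hx.2.le)
      have h9 := hk1 x (by linarith [hx.1]) hx.2.le
      rw [h8, one_mul]
      have h10 : (q x / s) ^ 2 ≤ 1 := by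
        rw [sq_le_one_iff_abs_le_one, abs_div, abs_of_pos hs0, div_le_one hs0,
          abs_of_neg hx.2]
        linarith [hx.1]
      have h11 : 1 / 2 ≤ 1 / (1 + (q x / s) ^ 2) := by
        apply one_div_le_one_div_of_le (by positivity)
        linarith
      have h12 : 1 / s ≤ 2 * (1 / (1 + (q x / s) ^ 2)) * (1 / s) := by
        have : 0 < 1 / s := by positivity
        nlinarith
      calc k / s = (1 / s) * k := by ring
        _ ≤ 2 * (1 / (1 + (q x / s) ^ 2)) * (1 / s) * ‖gradient q x‖ ^ 2 := by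
          apply mul_le_mul h12 h9 hk.le
          positivity
    · exact integrableOn_const hfin.ne
  have h8 : ∫ x in {x | -s < q x ∧ q x < 0},
        2 * (1 / (1 + (q x / s) ^ 2)) * (1 / s) * (χ x * ‖gradient q x‖ ^ 2) ≤
      ∫ x, 2 * (1 / (1 + (q x / s) ^ 2)) * (1 / s) * (χ x * ‖gradient q x‖ ^ 2) :=
    setIntegral_le_integral hint2 (Eventually.of_forall hpos)
  rw [setIntegral_const, smul_eq_mul] at h7
  have h9 : volume.real {x | -s < q x ∧ q x < 0} * (k / s) ≤ 4 * I := h7.trans (h8.trans h6)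
  have h10 : volume.real {x | -s < q x ∧ q x < 0} ≤ 4 * I / k * s := by
    rw [← mul_div_assoc, div_le_iff₀ hs0] at h9
    rw [div_mul_eq_mul_div, le_div_iff₀ hk]
    exact h9
  linarith

end Pool.Agent.Lib.MP_4fbe7c_an.ND.H24
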